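import Pool.Agent.Helper20.IIC.Stmts

/-! # Module MM2: monotonicity of the two point function along the diagonals -/

set_option autoImplicit false

namespace IIC

open Filter Topology Set

theorem mm2_le {d : ℕ} (g : lat d ≃g lat d) (e : Ed d) :
    le (g.mapEdgeSet e) = Sym2.map g (le e) := rfl

theorem mm2_step {d : ℕ} (g : lat d ≃g lat d) (hg : ∀ y, g (g y) = y) (Λ : Finset (Ed d))
    (hΛ : ∀ e, e ∈ Λ → g.mapEdgeSet e ∈ Λ) (a b : Fin d → ℤ)
    (h : Step le ((Λ : Set (Ed d))ᶜ) a b) : Step le ((Λ : Set (Ed d))ᶜ) (g a) (g b) := by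
  obtain ⟨e, he, hab⟩ := h
  refine ⟨g.mapEdgeSet e, fun hmem => he ?_, ?_⟩
  · have h1 := hΛ _ hmem
    have h2 : g.mapEdgeSet (g.mapEdgeSet e) = e := by
      apply Subtype.ext
      change Sym2.map g (Sym2.map g e.1) = e.1
      rw [Sym2.map_map]
      have : (g : (Fin d → ℤ) → (Fin d → ℤ)) ∘ g = id := funext hg
      rw [this, Sym2.map_id]
      rfl
    rw [h2] at h1
    exact h1
  · rw [mm2_le, hab, Sym2.map_mk]

/-- The inequality of Messager and Miracle-Solé in a symmetric finite volume (any reflection). -/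
theorem mm2_key {d : ℕ} (hMMSA : ST_MMSA) (hBR : ST_BR) (β : ℝ) (hβ : 0 ≤ β) (g : lat d ≃g lat d)
    (hg : ∀ y, g (g y) = y) (φ : (Fin d → ℤ) → ℤ) (hφ : ∀ y, φ (g y) = - φ y)
    (h0 : ∀ z, φ z = 0 → g z = z)
    (hcr : ∀ a b, (lat d).Adj a b → φ a < 0 → 0 < φ b → g a = b)
    (Λ : Finset (Ed d)) (hΛ : ∀ e, e ∈ Λ → g.mapEdgeSet e ∈ Λ)
    (x y : Fin d → ℤ) (hx : φ x ≤ 0) (hy : φ y ≤ 0) :
    PW β Λ (CN x (g y)) ≤ PW β Λ (CN x y) := by
  classical
  obtain ⟨hfin, hconn, hPW⟩ := hBR d Λ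
  have : Finite (QV Λ) := hfin
  let _ : Fintype (QV Λ) := Fintype.ofFinite _
  have hset : ∀ x z : Fin d → ℤ, {T | exw Λ (qs T) ∈ CN x z} = cn (qe Λ) (qm Λ x) (qm Λ z) := by
    intro x z
    ext T
    exact (hconn T x z).symm
  rw [hPW, hPW, hset, hset]
  let θ : QV Λ → QV Λ := Quot.map g (mm2_step g hg Λ hΛ)
  have hθ : ∀ a, θ (qm Λ a) = qm Λ (g a) := fun a => rfl
  let θE : {e // e ∈ Λ} → {e // e ∈ Λ} := fun e => ⟨g.mapEdgeSet e.1, hΛ _ e.2⟩
  let P : Set (QV Λ) := {q | ∃ a, qm Λ a = q ∧ φ a ≤ 0}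
  have hθθ : ∀ q, θ (θ q) = q := by
    intro q
    induction q using Quot.ind with
    | mk a =>
      change qm Λ (g (g a)) = qm Λ a
      rw [hg]
  -- the sign is constant on the classes that are not fixed
  have hsgn : ∀ a b : Fin d → ℤ, qm Λ a = qm Λ b → θ (qm Λ a) ≠ qm Λ a → (φ a < 0 ↔ φ b < 0) := by
    intro a b hab
    have hstep : ∀ a b : Fin d → ℤ, Step le ((Λ : Set (Ed d))ᶜ) a b → θ (qm Λ a) ≠ qm Λ a →
        φ a < 0 → φ b < 0 := by
      intro a b hst hne ha
      have hq : qm Λ a = qm Λ b := Quot.sound hst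
      obtain ⟨e, he, hab⟩ := hst
      have hadj : (lat d).Adj a b := by
        have := e.2
        rw [show (e : Sym2 (Fin d → ℤ)) = s(a, b) from hab] at this
        exact this
      by_contra hb
      rcases (not_lt.mp hb).lt_or_eq with h | h
      · apply hne
        rw [hθ, hcr a b hadj ha h, hq]
      · apply hne
        rw [hq, hθ, h0 b h.symm]
    have hsymm : ∀ a b : Fin d → ℤ, Step le ((Λ : Set (Ed d))ᶜ) a b →
        Step le ((Λ : Set (Ed d))ᶜ) b a := by
      rintro a b ⟨e, he, hab⟩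
      exact ⟨e, he, by rw [hab, Sym2.eq_swap]⟩
    have hgen := Quot.eqvGen_exact hab
    induction hgen with
    | rel a b h =>
      intro hne
      have hq : qm Λ a = qm Λ b := Quot.sound h
      exact ⟨hstep a b h hne, hstep b a (hsymm a b h) (by rw [← hq]; exact hne)⟩
    | refl a => intro _; exact Iff.rfl
    | symm a b h ih =>
      intro hne
      exact (ih hab.symm (by rw [← hab]; exact hne)).symm
    | trans a b c h1 h2 ih1 ih2 =>
      intro hne
      have hq1 : qm Λ a = qm Λ b := Quot.eqvGen_sound h1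
      have hq2 : qm Λ b = qm Λ c := Quot.eqvGen_sound h2
      exact (ih1 hq1 hne).trans (ih2 hq2 (by rw [← hq1]; exact hne))
  have hP1 : ∀ q, q ∈ P ∨ θ q ∈ P := by
    intro q
    induction q using Quot.ind with
    | mk a =>
      rcases le_or_gt (φ a) 0 with h | h
      · exact Or.inl ⟨a, rfl, h⟩
      · exact Or.inr ⟨g a, rfl, by rw [hφ]; omega⟩
  have hP2 : ∀ q ∈ P, θ q ∈ P → θ q = q := by
    rintro q ⟨a, rfl, ha⟩ ⟨b, hb, hb0⟩
    by_contra hne
    have ha' : φ a < 0 := by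
      rcases ha.lt_or_eq with h | h
      · exact h
      · exact absurd (by rw [hθ, h0 a h]) hne
    have hq : qm Λ a = qm Λ (g b) := by
      rw [← hθ b, hb, hθθ]
    have := (hsgn a (g b) hq hne).mp ha'
    rw [hφ] at this
    omega
  have hP3 : ∀ e : {e // e ∈ Λ}, (∀ v ∈ qe Λ e, v ∈ P) ∨ (∀ v ∈ qe Λ e, θ v ∈ P) ∨
      ∃ v, qe Λ e = s(v, θ v) := by
    rintro ⟨e, he⟩
    obtain ⟨a, b, hab⟩ : ∃ a b, le e = s(a, b) := by
      induction h : le e using Sym2.ind with
      | h a b => exact ⟨a, b, rfl⟩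
    have hadj : (lat d).Adj a b := by
      have := e.2
      rw [show (e : Sym2 (Fin d → ℤ)) = s(a, b) from hab] at this
      exact this
    have hq : qe Λ ⟨e, he⟩ = s(qm Λ a, qm Λ b) := by
      change Sym2.map (qm Λ) (le e) = _
      rw [hab, Sym2.map_mk]
    rw [hq]
    rcases le_or_gt (φ a) 0 with ha | ha
    · rcases le_or_gt (φ b) 0 with hb | hb
      · left
        intro v hv
        rcases Sym2.mem_iff.mp hv with rfl | rfl
        · exact ⟨a, rfl, ha⟩
        · exact ⟨b, rfl, hb⟩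
      · rcases ha.lt_or_eq with ha | ha
        · right; right
          exact ⟨qm Λ a, by rw [hθ, hcr a b hadj ha hb]⟩
        · right; left
          intro v hv
          rcases Sym2.mem_iff.mp hv with rfl | rfl
          · exact ⟨g a, rfl, by rw [hφ]; omega⟩
          · exact ⟨g b, rfl, by rw [hφ]; omega⟩
    · rcases le_or_gt 0 (φ b) with hb | hb
      · right; left
        intro v hv
        rcases Sym2.mem_iff.mp hv with rfl | rfl
        · exact ⟨g a, rfl, by rw [hφ]; omega⟩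
        · exact ⟨g b, rfl, by rw [hφ]; omega⟩
      · right; right
        exact ⟨qm Λ b, by rw [hθ, hcr b a hadj.symm hb ha, Sym2.eq_swap]⟩
  have hE1 : ∀ e, θE (θE e) = e := by
    rintro ⟨e, he⟩
    apply Subtype.ext
    apply Subtype.ext
    change Sym2.map g (Sym2.map g e.1) = e.1
    rw [Sym2.map_map]
    have : (g : (Fin d → ℤ) → (Fin d → ℤ)) ∘ g = id := funext hg
    rw [this, Sym2.map_id]
    rfl
  have hE2 : ∀ e, qe Λ (θE e) = Sym2.map θ (qe Λ e) := by
    rintro ⟨e, he⟩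
    change Sym2.map (qm Λ) (Sym2.map g (le e)) = Sym2.map θ (Sym2.map (qm Λ) (le e))
    rw [Sym2.map_map, Sym2.map_map]
    rfl
  exact hMMSA (QV Λ) {e // e ∈ Λ} (qe Λ) β θ θE P hβ hθθ hE1 hE2 hP1 hP2 hP3
    (qm Λ x) ⟨x, rfl, hx⟩ (qm Λ y) ⟨y, rfl, hy⟩

/-- The inequality of Messager and Miracle-Solé in infinite volume (any reflection). -/
theorem mm2_inf {d : ℕ} (hMMSA : ST_MMSA) (hBR : ST_BR) (hLIM : ST_LIM) (hUPS : ST_UPS) (β : ℝ)
    (hβ : 0 ≤ β) (g : lat d ≃g lat d)
    (hg : ∀ y, g (g y) = y) (φ : (Fin d → ℤ) → ℤ) (hφ : ∀ y, φ (g y) = - φ y)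
    (h0 : ∀ z, φ z = 0 → g z = z)
    (hcr : ∀ a b, (lat d).Adj a b → φ a < 0 → 0 < φ b → g a = b)
    (x y : Fin d → ℤ) (hx : φ x ≤ 0) (hy : φ y ≤ 0) :
    mW β (CN x (g y)) ≤ mW β (CN x y) := by
  classical
  let sy : Finset (Ed d) → Finset (Ed d) := fun Λ => Λ ∪ Λ.map g.mapEdgeSet.toEmbedding
  have hsy : Tendsto sy atTop atTop :=
    tendsto_atTop_mono (fun Λ => Finset.subset_union_left) tendsto_id
  have hgg : ∀ e : Ed d, g.mapEdgeSet (g.mapEdgeSet e) = e := by
    intro e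
    apply Subtype.ext
    change Sym2.map g (Sym2.map g e.1) = e.1
    rw [Sym2.map_map]
    have : (g : (Fin d → ℤ) → (Fin d → ℤ)) ∘ g = id := funext hg
    rw [this, Sym2.map_id]
    rfl
  have hsym : ∀ (Λ : Finset (Ed d)) (e : Ed d), e ∈ sy Λ → g.mapEdgeSet e ∈ sy Λ := by
    intro Λ e he
    rcases Finset.mem_union.mp he with h | h
    · exact Finset.mem_union_right _ (Finset.mem_map.mpr ⟨e, h, rfl⟩)
    · obtain ⟨e', he', rfl⟩ := Finset.mem_map.mp h
      refine Finset.mem_union_left _ ?_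
      have : g.mapEdgeSet (g.mapEdgeSet.toEmbedding e') = e' := hgg e'
      rw [this]
      exact he'
  have hlim := (((hLIM d β hβ).1 (CN x y) (hUPS d x y ∅).1).1).comp hsy
  refine ge_of_tendsto' hlim fun Λ => ?_
  exact (((hLIM d β hβ).1 (CN x (g y)) (hUPS d x (g y) ∅).1).2.2.2 (sy Λ)).trans
    (mm2_key hMMSA hBR β hβ g hg φ hφ h0 hcr (sy Λ) (hsym Λ) x y hx hy)

/-- The diagonal reflection `(y_i, y_j) ↦ (y_j + c, y_i - c)`. -/
def mm2_dia {d : ℕ} (i j : Fin d) (c : ℤ) (y : Fin d → ℤ) : Fin d → ℤ :=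
  fun k => y (Equiv.swap i j k) + (if k = i then c else 0) - (if k = j then c else 0)

theorem mm2_dia_dia {d : ℕ} (i j : Fin d) (hij : i ≠ j) (c : ℤ) (y : Fin d → ℤ) :
    mm2_dia i j c (mm2_dia i j c y) = y := by
  funext k
  unfold mm2_dia
  by_cases hi : k = i
  · subst hi
    simp [hij, Ne.symm hij]
  · by_cases hj : k = j
    · subst hj
      simp [hij, Ne.symm hij]
    · rw [Equiv.swap_apply_of_ne_of_ne hi hj]
      rw [Equiv.swap_apply_of_ne_of_ne hi hj]
      simp [hi, hj]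

/-- The diagonal reflection as an automorphism of the lattice. -/
def mm2_iso {d : ℕ} (i j : Fin d) (hij : i ≠ j) (c : ℤ) : lat d ≃g lat d where
  toFun := mm2_dia i j c
  invFun := mm2_dia i j c
  left_inv := mm2_dia_dia i j hij c
  right_inv := mm2_dia_dia i j hij c
  map_rel_iff' := by
    intro a b
    change ∑ k, |mm2_dia i j c a k - mm2_dia i j c b k| = 1 ↔ ∑ k, |a k - b k| = 1
    have : ∑ k, |mm2_dia i j c a k - mm2_dia i j c b k| =
        ∑ k, |a (Equiv.swap i j k) - b (Equiv.swap i j k)| := by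
      refine Finset.sum_congr rfl fun k _ => ?_
      unfold mm2_dia
      congr 1
      ring
    rw [this, Equiv.sum_comp (Equiv.swap i j) (fun k => |a k - b k|)]

theorem mm2_two {d : ℕ} (i j : Fin d) (hij : i ≠ j) (f : Fin d → ℤ) (hf : ∀ k, 0 ≤ f k) :
    f i + f j ≤ ∑ k, f k := by
  have h := Finset.sum_le_sum_of_subset_of_nonneg (f := f) (Finset.subset_univ {i, j})
    (fun k _ _ => hf k)
  rwa [Finset.sum_pair hij] at h

theorem st_MM2 (hMMSA : ST_MMSA) (hBR : ST_BR) (hLIM : ST_LIM) (hUPS : ST_UPS) : ST_MM2 := by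
  intro d hd β hβ i j x hij hx
  obtain ⟨c, hc⟩ : ∃ c : ℤ, c = x i - x j - 1 := ⟨_, rfl⟩
  have hc0 : 0 ≤ c := by omega
  have hgi : ∀ y : Fin d → ℤ, mm2_dia i j c y i = y j + c := by
    intro y
    simp [mm2_dia, hij]
  have hgj : ∀ y : Fin d → ℤ, mm2_dia i j c y j = y i - c := by
    intro y
    simp [mm2_dia, Ne.symm hij]
  have hgk : ∀ (y : Fin d → ℤ) (k : Fin d), k ≠ i → k ≠ j → mm2_dia i j c y k = y k := by
    intro y k hi hj
    simp [mm2_dia, hi, hj, Equiv.swap_apply_of_ne_of_ne hi hj]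
  have hext : ∀ y z : Fin d → ℤ, y i = z i → y j = z j → (∀ k, k ≠ i → k ≠ j → y k = z k) →
      y = z := by
    intro y z h1 h2 h3
    funext k
    by_cases hi : k = i
    · rw [hi]; exact h1
    · by_cases hj : k = j
      · rw [hj]; exact h2
      · exact h3 k hi hj
  have hgx : mm2_dia i j c (x - Pi.single i 1 + Pi.single j 1) = x := by
    apply hext
    · rw [hgi]
      simp [Ne.symm hij]
      omega
    · rw [hgj]
      simp [hij]
      omega
    · intro k hi hj
      rw [hgk _ k hi hj]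
      simp [hi, hj]
  have key := mm2_inf hMMSA hBR hLIM hUPS β hβ (mm2_iso i j hij c) (mm2_dia_dia i j hij c)
    (fun y => y i - y j - c)
    (fun y => by
      change mm2_dia i j c y i - mm2_dia i j c y j - c = _
      rw [hgi, hgj]; ring)
    (fun z hz => by
      change mm2_dia i j c z = z
      apply hext
      · rw [hgi]; omega
      · rw [hgj]; omega
      · exact fun k hi hj => hgk z k hi hj)
    (fun a b hab ha hb => by
      exfalso
      have h1 : ∑ k, |a k - b k| = 1 := hab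
      have h2 := mm2_two i j hij (fun k => |a k - b k|) (fun k => abs_nonneg _)
      rw [h1] at h2
      have h3 := neg_abs_le (a i - b i)
      have h4 := le_abs_self (a j - b j)
      have h2' : |a i - b i| + |a j - b j| ≤ 1 := h2
      have ha' : a i - a j - c < 0 := ha
      have hb' : 0 < b i - b j - c := hb
      omega)
    0 (x - Pi.single i 1 + Pi.single j 1)
    (by
      change (0 : ℤ) - 0 - c ≤ 0
      omega)
    (by
      change (x - Pi.single i 1 + Pi.single j 1 : Fin d → ℤ) i -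
        (x - Pi.single i 1 + Pi.single j 1 : Fin d → ℤ) j - c ≤ 0
      simp only [Pi.add_apply, Pi.sub_apply, Pi.single_eq_same, Pi.single_eq_of_ne hij,
        Pi.single_eq_of_ne (Ne.symm hij)]
      omega)
  have hgx' : mm2_iso i j hij c (x - Pi.single i 1 + Pi.single j 1) = x := hgx
  rw [hgx'] at key
  exact key

end IIC
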